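import Pool.Agent.helper4.GA.Spec

/-!
# MP_3c0a64_an, gauge form: row FIN
-/

set_option autoImplicit false

open Finset
open Pool.Agent.helper32.Cant

namespace Pool.Agent.GA

theorem FIN_num (n : ℕ) (hn : 4 ≤ n) : 4 * ((n : ℝ) + 1) ^ 4 ≤ (n : ℝ) ^ 6 := by
  have h : (4 : ℝ) ≤ n := by exact_mod_cast hn
  have h1 : (n : ℝ) + 1 ≤ 5 / 4 * n := by linarith
  have h2 : ((n : ℝ) + 1) ^ 4 ≤ (5 / 4 * (n : ℝ)) ^ 4 := pow_le_pow_left₀ (by positivity) h1 4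
  have h3 : (16 : ℝ) ≤ (n : ℝ) ^ 2 := by nlinarith
  have h4 : (0 : ℝ) ≤ (n : ℝ) ^ 4 := by positivity
  have h5 : (n : ℝ) ^ 6 = (n : ℝ) ^ 4 * (n : ℝ) ^ 2 := by ring
  have h6 : (5 / 4 * (n : ℝ)) ^ 4 = 625 / 256 * (n : ℝ) ^ 4 := by ring
  rw [h6] at h2
  rw [h5]
  nlinarith

theorem FIN (hFSC : FSC_stmt) (hFEW : FEW_stmt) (hCFG : CFG_stmt) : FIN_stmt := by
  refine ⟨10 ^ 15 + 1, by norm_num, fun S B hS hr => ?_⟩
  by_contra hB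
  set C₀ : ℝ := 10 ^ 15 + 1 with hC₀
  choose! r hr0 hrB using hr
  -- the pieces
  set P : ℤ × ℤ → Set ℝ := fun q => {x | x ∈ S ∧ ((2 : ℝ) ^ q.1 ≤ r x ∧ r x < 2 * (2 : ℝ) ^ q.1) ∧
    ((q.2 : ℝ) * (2 : ℝ) ^ q.1 ≤ x ∧ x < (q.2 : ℝ) * (2 : ℝ) ^ q.1 + (2 : ℝ) ^ q.1)} with hP
  have hcov : S ⊆ ⋃ q, P q := by
    intro x hx
    obtain ⟨l, hl⟩ := exists_mem_Ico_zpow (hr0 x hx) (show (1 : ℝ) < 2 by norm_num)
    have hl0 : (0 : ℝ) < (2 : ℝ) ^ l := by positivity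
    have h1 : (⌊x / (2 : ℝ) ^ l⌋ : ℝ) ≤ x / (2 : ℝ) ^ l := Int.floor_le _
    have h2 : x / (2 : ℝ) ^ l < (⌊x / (2 : ℝ) ^ l⌋ : ℝ) + 1 := Int.lt_floor_add_one _
    rw [le_div_iff₀ hl0] at h1
    rw [div_lt_iff₀ hl0] at h2
    refine Set.mem_iUnion.2 ⟨(l, ⌊x / (2 : ℝ) ^ l⌋), hx, ⟨hl.1, ?_⟩, h1, ?_⟩
    · have h3 := hl.2
      rw [zpow_add_one₀ (by norm_num)] at h3
      show r x < 2 * (2 : ℝ) ^ l
      linarith
    · show x < (⌊x / (2 : ℝ) ^ l⌋ : ℝ) * (2 : ℝ) ^ l + (2 : ℝ) ^ l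
      linarith
  obtain ⟨q, hq⟩ : ∃ q, MeasureTheory.volume (P q) ≠ 0 := by
    by_contra hcon
    push Not at hcon
    exact hS (MeasureTheory.measure_mono_null hcov (MeasureTheory.measure_iUnion_null hcon))
  have hl0 : (0 : ℝ) < (2 : ℝ) ^ q.1 := by positivity
  obtain ⟨C', hC'⟩ := hFEW B C₀ ((q.2 : ℝ) * (2 : ℝ) ^ q.1) ((2 : ℝ) ^ q.1)
    (by rw [hC₀]; norm_num) hl0 hB
  have hcfg := hCFG (P q) r ((q.2 : ℝ) * (2 : ℝ) ^ q.1) ((2 : ℝ) ^ q.1) hl0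
    (fun x hx => hx.2.1) (fun x hx => hx.2.2) B (fun x hx c hc => hrB x hx.1 c hc) hq
    (fun n : ℕ => 3 ^ n * Real.exp (-(C₀ * Real.log n ^ 3))) C' hC'
  obtain ⟨N₀, hN₀⟩ := hFSC
  -- large n
  have hlog : Filter.Tendsto (fun n : ℕ => Real.log (n : ℝ)) Filter.atTop Filter.atTop :=
    Real.tendsto_log_atTop.comp tendsto_natCast_atTop_atTop
  obtain ⟨N₁, hN₁⟩ := Filter.eventually_atTop.1 (hlog.eventually_ge_atTop (|7 * C'| + 1))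
  obtain ⟨n, hn, c, hc1, hc2⟩ := hcfg (max N₀ (max N₁ 4))
  have hn0 : N₀ ≤ n := (le_max_left _ _).trans hn
  have hn1 : N₁ ≤ n := (le_max_left _ _).trans ((le_max_right _ _).trans hn)
  have hn4 : 4 ≤ n := (le_max_right _ _).trans ((le_max_right _ _).trans hn)
  have hnpos : (0 : ℝ) < n := by
    have : 0 < n := by omega
    exact_mod_cast this
  have h1 : (6 : ℝ) ^ n / n ^ 6 ≤ c.G.card := by
    refine le_trans ?_ hc1
    have h2 : (3 : ℝ) ^ n * 2 ^ n = 6 ^ n := by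
      rw [← mul_pow]
      norm_num
    rw [h2]
    exact div_le_div_of_nonneg_left (by positivity) (by positivity) (FIN_num n hn4)
  have h2 := hN₀ n hn0 c h1
  have h3 := h2.trans hc2
  set X : ℝ := Real.log n with hX
  have hXbig : |7 * C'| + 1 ≤ X := hN₁ n hn1
  have h4 : Real.exp (-(10 ^ 15 * X ^ 3)) = Real.exp (X ^ 3) * Real.exp (-(C₀ * X ^ 3)) := by
    rw [← Real.exp_add, hC₀]
    congr 1
    ring
  rw [h4] at h3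
  have h5 : Real.exp (X ^ 3) ≤ 7 * C' := by
    have h6 : (0 : ℝ) < 3 ^ n * Real.exp (-(C₀ * X ^ 3)) := by positivity
    have h7 : Real.exp (X ^ 3) * (3 ^ n * Real.exp (-(C₀ * X ^ 3))) ≤
        7 * C' * (3 ^ n * Real.exp (-(C₀ * X ^ 3))) := by
      calc Real.exp (X ^ 3) * (3 ^ n * Real.exp (-(C₀ * X ^ 3)))
          = 3 ^ n * (Real.exp (X ^ 3) * Real.exp (-(C₀ * X ^ 3))) := by ring
        _ ≤ 7 * C' * (3 ^ n * Real.exp (-(C₀ * X ^ 3))) := h3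
    exact le_of_mul_le_mul_right h7 h6
  have hX1 : 1 ≤ X := by linarith [abs_nonneg (7 * C')]
  have h6 : X ≤ X ^ 3 := by
    calc X = X ^ 1 := (pow_one X).symm
      _ ≤ X ^ 3 := pow_le_pow_right₀ hX1 (by norm_num)
  have h7 : X ^ 3 + 1 ≤ Real.exp (X ^ 3) := Real.add_one_le_exp _
  have h8 := le_abs_self (7 * C')
  linarith

end Pool.Agent.GA
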